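import Mathlib
import Pool.Agent.V8H60.TV.Free

set_option autoImplicit false
set_option linter.unusedSectionVars false

/-!
# Extensions of nonarchimedean groups by locally compact groups: the action on a piece
-/

namespace Pool.Agent.V8H60.TX

open Set Filter Topology MeasureTheory
open Function (Surjective Injective)
open Pool.Agent.V8H60.TV (TVC Dich countable_orbits_iff countable_of_far2 perfect_of_countable')

/-- the configuration: small compact sets in the kernel, a small neighbourhood which is mapped onto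
an open subgroup, and a bump function -/
structure Cfg {G W X : Type} [Group G] [Group W] [MulAction G X] (q : G →* W) (U C P : Set G)
    (V : Subgroup W) (f e : X → ℝ) : Prop where
  U1 : (1 : G) ∈ U
  Ui : ∀ u ∈ U, u⁻¹ ∈ U
  Ci : ∀ c ∈ C, c⁻¹ ∈ C
  U3 : ∀ u₁ ∈ U, ∀ u₂ ∈ U, ∀ u₃ ∈ U, u₁ * u₂ * u₃ ∈ C
  P1 : (1 : G) ∈ P
  Pi : ∀ p ∈ P, p⁻¹ ∈ P
  PV : q '' P = V
  J : ∀ u₁ ∈ U, ∀ u₂ ∈ U, ∀ u₃ ∈ U, ∀ p ∈ P, ∀ s ∈ q.ker, ∀ s' ∈ q.ker,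
    (∃ p₁ ∈ P, ∃ p₂ ∈ P, ∃ p₃ ∈ P, s = p₁ * p₂ * p₃) →
    (∃ p₁ ∈ P, ∃ p₂ ∈ P, ∃ p₃ ∈ P, s' = p₁ * p₂ * p₃) → u₁ * s * (p * u₂ * p⁻¹) * s' * u₃ ∈ C
  he : ∀ x, 0 ≤ e x ↔ (1 / 2 ≤ f x ∧ ∀ m ∈ C, f (m • x) ≤ 1 / 4 ∨ ∃ u ∈ U, u • x = m • x)
  fP : ∀ p ∈ P, ∀ x, |f (p • x) - f x| ≤ 1 / 8

namespace Cfg

section

variable {G W X : Type} [Group G] [Group W] [MulAction G X] {q : G →* W} {U C P : Set G}
  {V : Subgroup W} {f e : X → ℝ}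

theorem mem (h : Cfg q U C P V f e) {p : G} (hp : p ∈ P) : q p ∈ V := by
  have : q p ∈ (V : Set W) := h.PV ▸ mem_image_of_mem q hp
  exact this

theorem lift (h : Cfg q U C P V f e) {w : W} (hw : w ∈ V) : ∃ p ∈ P, q p = w := by
  have h1 : w ∈ q '' P := by
    rw [h.PV]
    exact hw
  exact h1

theorem one3 (h : Cfg q U C P V f e) : ∃ p₁ ∈ P, ∃ p₂ ∈ P, ∃ p₃ ∈ P, (1 : G) = p₁ * p₂ * p₃ :=
  ⟨1, h.P1, 1, h.P1, 1, h.P1, by simp⟩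

theorem J2 (h : Cfg q U C P V f e) {u₁ u₂ p a b c : G} (h1 : u₁ ∈ U) (h2 : u₂ ∈ U) (hp : p ∈ P)
    (ha : a ∈ P) (hb : b ∈ P) (hc : c ∈ P) (hk : q a * q b * q c = 1) :
    u₁ * (a * b * c) * (p * u₂ * p⁻¹) ∈ C := by
  have h3 := h.J u₁ h1 u₂ h2 1 h.U1 p hp (a * b * c)
    (by rw [MonoidHom.mem_ker, map_mul, map_mul, hk]) 1 q.ker.one_mem
    ⟨a, ha, b, hb, c, hc, rfl⟩ h.one3
  rwa [mul_one, mul_one] at h3

theorem J3 (h : Cfg q U C P V f e) {u₁ u₂ p a b c : G} (h1 : u₁ ∈ U) (h2 : u₂ ∈ U) (hp : p ∈ P)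
    (ha : a ∈ P) (hb : b ∈ P) (hc : c ∈ P) (hk : q a * q b * q c = 1) :
    u₁ * (p * u₂ * p⁻¹) * (a * b * c) ∈ C := by
  have h3 := h.J u₁ h1 u₂ h2 1 h.U1 p hp 1 q.ker.one_mem (a * b * c)
    (by rw [MonoidHom.mem_ker, map_mul, map_mul, hk]) h.one3
    ⟨a, ha, b, hb, c, hc, rfl⟩
  rwa [mul_one, mul_one] at h3

theorem J1 (h : Cfg q U C P V f e) {u a b c : G} (h1 : u ∈ U)
    (ha : a ∈ P) (hb : b ∈ P) (hc : c ∈ P) (hk : q a * q b * q c = 1) :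
    u * (a * b * c) ∈ C := by
  have h3 := h.J2 h1 h.U1 h.P1 ha hb hc hk
  simpa using h3

theorem UU (h : Cfg q U C P V f e) {u v : G} (hu : u ∈ U) (hv : v ∈ U) : u * v ∈ C := by
  have h1 := h.U3 u hu v hv 1 h.U1
  rwa [mul_one] at h1

theorem l2 (h : Cfg q U C P V f e) {y z : X} (hz : 0 ≤ e z) {n : G} (hn : n ∈ C)
    (hy : 1 / 4 < f y) (e1 : z = n • y) : ∃ u ∈ U, z = u • y := by
  have h1 := ((h.he z).1 hz).2 n⁻¹ (h.Ci n hn)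
  have h2 : n⁻¹ • z = y := by rw [e1, inv_smul_smul]
  rw [h2] at h1
  rcases h1 with h1 | ⟨u, hu, h3⟩
  · exact absurd h1 (not_le.2 hy)
  · exact ⟨u⁻¹, h.Ui u hu, by rw [← h3, inv_smul_smul]⟩

theorem l3 (h : Cfg q U C P V f e) {z : X} (hz : 0 ≤ e z) {p : G} (hp : p ∈ P) :
    1 / 4 < f (p • z) := by
  have h1 := ((h.he z).1 hz).1
  have h2 := (abs_le.1 (h.fP p hp z)).1
  linarith

theorem l0 (h : Cfg q U C P V f e) {z : X} (hz : 0 ≤ e z) : 1 / 4 < f z := by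
  have h1 := ((h.he z).1 hz).1
  linarith

end

end Cfg

/-- the good points -/
def Dom {G X : Type} [Group G] [MulAction G X] (U P : Set G) (e : X → ℝ) (z : X) : Prop :=
  0 ≤ e z ∧ ∀ p ∈ P, ∃ u ∈ U, 0 ≤ e (u • p • z)

/-- the move by an element of `W` -/
def Mv {G W X : Type} [Group G] [Group W] [MulAction G X] (q : G →* W) (U P : Set G) (w : W)
    (z z' : X) : Prop := ∃ p ∈ P, q p = w ∧ ∃ u ∈ U, z' = u • p • z

namespace Cfg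

section

variable {G W X : Type} [Group G] [Group W] [MulAction G X] {q : G →* W} {U C P : Set G}
  {V : Subgroup W} {f e : X → ℝ}

theorem F1 (h : Cfg q U C P V f e) {z : X} (hz : Dom U P e z) {p u : G} (hp : p ∈ P) (hu : u ∈ U)
    (hs : 0 ≤ e (u • p • z)) : Dom U P e (u • p • z) := by
  refine ⟨hs, fun p' hp' => ?_⟩
  obtain ⟨p'', hp'', hq''⟩ := h.lift (V.mul_mem (h.mem hp') (h.mem hp))
  obtain ⟨m, hm, hz''⟩ := hz.2 p'' hp''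
  have hc : m * (p'' * p⁻¹ * p'⁻¹) * (p' * u⁻¹ * p'⁻¹) ∈ C :=
    h.J2 hm (h.Ui u hu) hp' hp'' (h.Pi p hp) (h.Pi p' hp') (by
      rw [hq'', map_inv, map_inv]
      group)
  have e1 : m • p'' • z = (m * (p'' * p⁻¹ * p'⁻¹) * (p' * u⁻¹ * p'⁻¹)) • (p' • u • p • z) := by
    simp only [smul_smul]
    congr 1
    group
  obtain ⟨v, hv, e2⟩ := h.l2 hz'' hc (h.l3 hs hp') e1
  exact ⟨v, hv, by rw [← e2]; exact hz''⟩

/-- a move can be done with any lift -/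
theorem any (h : Cfg q U C P V f e) {z z' : X} (hz : 0 ≤ e z) (hz' : 0 ≤ e z') {w : W}
    (hm : ∃ p ∈ P, q p = w ∧ ∃ n ∈ C, z' = n • p • z) {p' : G} (hp' : p' ∈ P) (hq' : q p' = w) :
    ∃ u ∈ U, z' = u • p' • z := by
  obtain ⟨p, hp, hqp, n, hn, e1⟩ := hm
  obtain ⟨u, hu, e2⟩ := h.l2 hz' hn (h.l3 hz hp) e1
  have hc : u * (p * p'⁻¹ * 1) ∈ C := h.J1 hu hp (h.Pi p' hp') h.P1 (by
    rw [map_inv, map_one, hqp, hq']
    group)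
  refine h.l2 hz' hc (h.l3 hz hp') ?_
  rw [e2]
  simp only [smul_smul]
  congr 1
  group

theorem mv_C (h : Cfg q U C P V f e) {z z' : X} {w : W} (hm : Mv q U P w z z') :
    ∃ p ∈ P, q p = w ∧ ∃ n ∈ C, z' = n • p • z := by
  obtain ⟨p, hp, hqp, u, hu, e1⟩ := hm
  exact ⟨p, hp, hqp, u, by simpa using h.UU hu h.U1, e1⟩

variable {Ψ η : ℕ → X → ℝ}

theorem F3 (h : Cfg q U C P V f e) (hsep : ∀ x y, (∀ k, Ψ k x = Ψ k y) → x = y)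
    (hη : ∀ x x', (∀ y, ((∃ u ∈ U, u • x = y) ∧ 0 ≤ e y) ↔ ((∃ u ∈ U, u • x' = y) ∧ 0 ≤ e y)) →
        ∀ k, η k x = η k x') {z z' : X} (hz : 0 ≤ e z) (hz' : 0 ≤ e z')
    {n : G} (hn : n ∈ C) (e1 : z' = n • z) (k1 : ∀ k, Ψ k z = η k z) (k2 : ∀ k, Ψ k z' = η k z') :
    z = z' := by
  obtain ⟨u, hu, e2⟩ := h.l2 hz' hn (h.l0 hz) e1
  refine hsep _ _ fun k => ?_
  rw [k1, k2]
  refine hη z z' (fun y => ?_) k
  constructor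
  · rintro ⟨⟨v, hv, e3⟩, hy⟩
    refine ⟨?_, hy⟩
    obtain ⟨v', hv', e4⟩ := h.l2 hy (h.UU hv (h.Ui u hu)) (h.l0 hz') (y := z') (by
      rw [e2, smul_smul, inv_mul_cancel_right, e3])
    exact ⟨v', hv', e4.symm⟩
  · rintro ⟨⟨v, hv, e3⟩, hy⟩
    refine ⟨?_, hy⟩
    obtain ⟨v', hv', e4⟩ := h.l2 hy (h.UU hv hu) (h.l0 hz) (y := z) (by
      rw [← e3, e2, smul_smul])
    exact ⟨v', hv', e4.symm⟩

/-- every good point is near a good point in normal form -/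
theorem F2 (h : Cfg q U C P V f e)
    (hη : ∀ x x', (∀ y, ((∃ u ∈ U, u • x = y) ∧ 0 ≤ e y) ↔ ((∃ u ∈ U, u • x' = y) ∧ 0 ≤ e y)) →
        ∀ k, η k x = η k x')
    (hη2 : ∀ x, (∃ u ∈ U, 0 ≤ e (u • x)) → ∃ u ∈ U, 0 ≤ e (u • x) ∧ ∀ k, Ψ k (u • x) = η k x)
    {z : X} (hz : Dom U P e z) :
    ∃ u ∈ U, Dom U P e (u • z) ∧ ∀ k, Ψ k (u • z) = η k (u • z) := by
  obtain ⟨u, hu, hs, hk⟩ := hη2 z ⟨1, h.U1, by rw [one_smul]; exact hz.1⟩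
  refine ⟨u, hu, ?_, fun k => ?_⟩
  · have h1 := h.F1 hz h.P1 hu (by rwa [one_smul])
    rwa [one_smul] at h1
  · rw [hk]
    refine hη _ _ (fun y => ?_) k
    constructor
    · rintro ⟨⟨v, hv, e3⟩, hy⟩
      refine ⟨?_, hy⟩
      obtain ⟨v', hv', e4⟩ := h.l2 hy (h.UU hv (h.Ui u hu)) (h.l0 hs) (y := u • z) (by
        rw [smul_smul, inv_mul_cancel_right, e3])
      exact ⟨v', hv', e4.symm⟩
    · rintro ⟨⟨v, hv, e3⟩, hy⟩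
      refine ⟨?_, hy⟩
      obtain ⟨v', hv', e4⟩ := h.l2 hy (h.UU hv hu) (h.l0 hz.1) (y := z) (by
        rw [← e3, smul_smul])
      exact ⟨v', hv', e4.symm⟩

end

end Cfg

end Pool.Agent.V8H60.TX
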