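import Mathlib
import Pool.Agent.V8H60.TX.Piece

set_option autoImplicit false
set_option linter.unusedSectionVars false

/-!
# The dichotomy for a piece
-/

namespace Pool.Agent.V8H60.TX

open Set Filter Topology MeasureTheory
open Function (Surjective Injective)
open Pool.Agent.V8H60.TV (TVC Dich countable_orbits_iff countable_of_far2 perfect_of_countable')

variable {G W X : Type} [TopologicalSpace G] [Group G] [IsTopologicalGroup G] [PolishSpace G]
  [MeasurableSpace G] [BorelSpace G] [TopologicalSpace W] [Group W] [IsTopologicalGroup W]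
  [PolishSpace W] [MeasurableSpace W] [BorelSpace W] [MeasurableSpace X] [StandardBorelSpace X]
  [MulAction G X] {q : G →* W} {U C P : Set G} {V : Subgroup W} {f e : X → ℝ} {Ψ η : ℕ → X → ℝ}

/-- the set of good points is Borel -/
theorem dom_meas (hm : Measurable fun p : G × X => p.1 • p.2) (hP : IsOpen P)
    (he : Measurable e) {E : X → ℝ} (hE : Measurable E)
    (hEc : ∀ x, Continuous fun g : G => E (g • x))
    (hEe : ∀ x, 0 ≤ E x ↔ ∃ u ∈ U, 0 ≤ e (u • x)) : MeasurableSet {z | Dom U P e z} := by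
  obtain ⟨D, hDP, hDc, hD⟩ : ∃ D : Set G, D ⊆ P ∧ D.Countable ∧ P ⊆ closure D := by
    refine ⟨P ∩ range (TopologicalSpace.denseSeq G), inter_subset_left,
      (countable_range _).mono inter_subset_right, ?_⟩
    exact (TopologicalSpace.denseRange_denseSeq G).open_subset_closure_inter hP
  have h1 : {z | Dom U P e z} = {z | 0 ≤ e z} ∩ ⋂ p ∈ D, {z : X | 0 ≤ E (p • z)} := by
    ext z
    simp only [mem_inter_iff, mem_iInter, mem_ofPred_eq]
    refine and_congr_right fun _ => ?_
    constructor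
    · intro h p hp
      exact (hEe _).2 (h p (hDP hp))
    · intro h p hp
      have h2 : IsClosed {g : G | 0 ≤ E (g • z)} := isClosed_le continuous_const (hEc z)
      have h3 : closure D ⊆ {g : G | 0 ≤ E (g • z)} := h2.closure_subset_iff.2 fun g hg => h g hg
      exact (hEe _).1 (h3 (hD hp))
  rw [h1]
  refine (measurableSet_le measurable_const he).inter (MeasurableSet.biInter hDc fun p _ => ?_)
  exact measurableSet_le measurable_const
    (hE.comp (hm.comp (measurable_const.prodMk measurable_id)))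

/-- The dichotomy for a piece. -/
theorem dich_piece (hm : Measurable fun p : G × X => p.1 • p.2) (hq : Continuous q)
    (h : Cfg q U C P V f e) (hU : IsCompact U) (hP : IsOpen P) (hVo : IsOpen (V : Set W))
    (hΨ : ∀ k, Measurable (Ψ k)) (hsep : ∀ x y, (∀ k, Ψ k x = Ψ k y) → x = y)
    (he : Measurable e) {E : X → ℝ} (hE : Measurable E)
    (hEc : ∀ x, Continuous fun g : G => E (g • x))
    (hEe : ∀ x, 0 ≤ E x ↔ ∃ u ∈ U, 0 ≤ e (u • x)) (hηm : ∀ k, Measurable (η k))
    (hη : ∀ x x', (∀ y, ((∃ u ∈ U, u • x = y) ∧ 0 ≤ e y) ↔ ((∃ u ∈ U, u • x' = y) ∧ 0 ≤ e y)) →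
        ∀ k, η k x = η k x')
    (hη2 : ∀ x, (∃ u ∈ U, 0 ≤ e (u • x)) → ∃ u ∈ U, 0 ≤ e (u • x) ∧ ∀ k, Ψ k (u • x) = η k x)
    (hTV : TVC V) :
    (∃ A : Set X, A.Countable ∧ ∀ z, Dom U P e z → ∃ s ∈ A, ∃ g : G, g • s = z) ∨
      ∃ φ : (ℕ → Bool) → X, Measurable φ ∧ ∀ a b, a ≠ b → ¬ ∃ g : G, g • φ a = φ b := by
  -- the transversal
  let S : Set X := {z | Dom U P e z ∧ ∀ k, Ψ k z = η k z}
  have hSm : MeasurableSet S := by
    have h1 : S = {z | Dom U P e z} ∩ ⋂ k, {z | Ψ k z = η k z} := by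
      ext z
      simp only [S, mem_inter_iff, mem_iInter, mem_ofPred_eq]
    rw [h1]
    exact (dom_meas hm hP he hE hEc hEe).inter (MeasurableSet.iInter fun k =>
      measurableSet_eq_fun (hΨ k) (hηm k))
  have _ : StandardBorelSpace S := hSm.standardBorel
  -- uniqueness
  have huniq : ∀ (w : W) (z s s' : X), 0 ≤ e z → s ∈ S → s' ∈ S →
      (∃ p ∈ P, q p = w ∧ ∃ n ∈ C, s = n • p • z) → (∃ p ∈ P, q p = w ∧ ∃ n ∈ C, s' = n • p • z) →
      s = s' := by
    intro w z s s' hz hs hs' h1 h2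
    obtain ⟨p, hp, hqp⟩ : ∃ p ∈ P, q p = w := by
      obtain ⟨p, hp, hqp, -⟩ := h1
      exact ⟨p, hp, hqp⟩
    obtain ⟨u, hu, e1⟩ := h.any hz hs.1.1 h1 hp hqp
    obtain ⟨u', hu', e2⟩ := h.any hz hs'.1.1 h2 hp hqp
    refine h.F3 hsep hη hs.1.1 hs'.1.1 (h.UU hu' (h.Ui u hu)) ?_ hs.2 hs'.2
    rw [e1, e2, smul_smul (u' * u⁻¹), inv_mul_cancel_right]
  -- existence
  have hex : ∀ (w : V) (z : S), ∃ s : S, ∃ p ∈ P, q p = w ∧ ∃ n ∈ C, (s : X) = n • p • (z : X) := by
    intro w z
    obtain ⟨p, hp, hqp⟩ := h.lift w.2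
    obtain ⟨u, hu, hz1⟩ := z.2.1.2 p hp
    obtain ⟨v, hv, hd, hk⟩ := h.F2 hη hη2 (h.F1 z.2.1 hp hu hz1)
    exact ⟨⟨v • u • p • (z : X), hd, hk⟩, p, hp, hqp, v * u, h.UU hv hu, by
      show v • u • p • (z : X) = _
      rw [mul_smul]⟩
  choose act hact using hex
  have hchar : ∀ (w : V) (z s : S), (∃ p ∈ P, q p = w ∧ ∃ n ∈ C, (s : X) = n • p • (z : X)) →
      act w z = s := by
    intro w z s h1
    exact Subtype.ext (huniq w z _ _ z.2.1.1 (act w z).2 s.2 (hact w z) h1)
  have h1C : (1 : G) ∈ C := by simpa using h.UU h.U1 h.U1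
  let actS : MulAction V S :=
    { smul := act
      one_smul := fun z => hchar 1 z z ⟨1, h.P1, by rw [map_one]; rfl, 1, h1C, by
        rw [one_smul, one_smul]⟩
      mul_smul := fun w' w z => by
        refine hchar (w' * w) z _ ?_
        show ∃ p ∈ P, q p = (w' : W) * (w : W) ∧ ∃ n ∈ C, (act w' (act w z) : X) = n • p • (z : X)
        obtain ⟨p, hp, hqp⟩ := h.lift w.2
        obtain ⟨p', hp', hqp'⟩ := h.lift w'.2
        obtain ⟨p'', hp'', hqp''⟩ := h.lift (V.mul_mem w'.2 w.2)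
        obtain ⟨u, hu, e1⟩ := h.any z.2.1.1 (act w z).2.1.1 (hact w z) hp hqp
        obtain ⟨u', hu', e2⟩ := h.any (act w z).2.1.1 (act w' (act w z)).2.1.1
          (hact w' (act w z)) hp' hqp'
        refine ⟨p'', hp'', hqp'', u' * (p' * u * p'⁻¹) * (p' * p * p''⁻¹),
          h.J3 hu' hu hp' hp' hp (h.Pi _ hp'') (by rw [map_inv, hqp, hqp', hqp'']; group), ?_⟩
        rw [e2, e1]
        simp only [smul_smul]
        congr 1
        group }
  have hsm : ∀ (w : V) (z : S), w • z = act w z := fun _ _ => rfl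
  have hpol : PolishSpace V := hVo.polishSpace
  -- the action is Borel
  have hmeasF : Measurable fun r : V × S => r.1 • r.2 := by
    let _ := upgradeStandardBorel S
    have hana : ∀ B : Set S, MeasurableSet B →
        AnalyticSet ((fun r : V × S => r.1 • r.2) ⁻¹' B) := by
      intro B hB
      have hB' : MeasurableSet (Subtype.val '' B : Set X) := hSm.subtype_image hB
      have h1 : MeasurableSet {r : (G × G) × (V × S) | (r.1.1 ∈ P ∧ r.1.2 ∈ U) ∧
          q r.1.1 = (r.2.1 : W) ∧ r.1.2 • r.1.1 • (r.2.2 : X) ∈ (Subtype.val '' B : Set X)} := by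
        refine MeasurableSet.inter (MeasurableSet.inter ?_ ?_) (MeasurableSet.inter ?_ ?_)
        · exact (measurable_fst.comp measurable_fst) hP.measurableSet
        · exact (measurable_snd.comp measurable_fst) hU.isClosed.measurableSet
        · exact measurableSet_eq_fun (hq.measurable.comp (measurable_fst.comp measurable_fst))
            (measurable_subtype_coe.comp (measurable_fst.comp measurable_snd))
        · have hF : Measurable fun r : (G × G) × (V × S) => r.1.2 • r.1.1 • (r.2.2 : X) :=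
            hm.comp ((measurable_snd.comp measurable_fst).prodMk
              (hm.comp ((measurable_fst.comp measurable_fst).prodMk
                (measurable_subtype_coe.comp (measurable_snd.comp measurable_snd)))))
          exact hF hB'
      have h2 := h1.analyticSet.image_of_continuous (continuous_snd (X := G × G))
      have h3 : Prod.snd '' {r : (G × G) × (V × S) | (r.1.1 ∈ P ∧ r.1.2 ∈ U) ∧
          q r.1.1 = (r.2.1 : W) ∧ r.1.2 • r.1.1 • (r.2.2 : X) ∈ (Subtype.val '' B : Set X)} =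
          (fun r : V × S => r.1 • r.2) ⁻¹' B := by
        ext ⟨w, z⟩
        constructor
        · rintro ⟨⟨⟨p, u⟩, ⟨w', z'⟩⟩, ⟨⟨hp, hu⟩, hqp, s, hs, e1⟩, e2⟩
          cases e2
          show act w z ∈ B
          have h4 : act w z = s := hchar w z s ⟨p, hp, hqp, u, by simpa using h.UU hu h.U1, e1⟩
          rw [h4]
          exact hs
        · intro hB2
          obtain ⟨p, hp, hqp⟩ := h.lift w.2
          obtain ⟨u, hu, e1⟩ := h.any z.2.1.1 (act w z).2.1.1 (hact w z) hp hqp
          exact ⟨((p, u), (w, z)), ⟨⟨hp, hu⟩, hqp, act w z, hB2, e1⟩, rfl⟩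
      rwa [h3] at h2
    intro B hB
    exact (hana B hB).measurableSet_of_compl (by
      rw [← preimage_compl]
      exact hana _ hB.compl)
  have _ : MeasurableSMul₂ V S := ⟨hmeasF⟩
  rcases hTV S with h1 | ⟨φ, hφ, hφ2⟩
  · left
    rw [countable_orbits_iff] at h1
    obtain ⟨A, hA, hA2⟩ := h1
    refine ⟨Subtype.val '' A, hA.image _, fun z hz => ?_⟩
    obtain ⟨u, hu, hd, hk⟩ := h.F2 hη hη2 hz
    obtain ⟨c, hc, w, hw⟩ := hA2 ⟨u • z, hd, hk⟩
    obtain ⟨p, -, -, n, -, e1⟩ := hact w c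
    refine ⟨c, ⟨c, hc, rfl⟩, u⁻¹ * n * p, ?_⟩
    have e2 : u • z = n • p • (c : X) := by
      rw [← e1, ← hsm, hw]
    rw [mul_smul, mul_smul, ← e2, inv_smul_smul]
  · right
    have hφX : Measurable fun b => (φ b : X) := measurable_subtype_coe.comp hφ
    have hsec : ∀ b, {b' | ∃ g : G, g • (φ b : X) = (φ b' : X)}.Countable := by
      intro b
      choose g hg using fun b' : {b' | ∃ g : G, g • (φ b : X) = (φ b' : X)} => b'.2
      refine countable_of_far2 (O := P) (hP.mem_nhds h.P1) g fun a c hac => ?_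
      by_contra hne
      refine hφ2 c a (fun e => hne (Subtype.ext e).symm)
        ⟨⟨q (g a * (g c)⁻¹), h.mem hac⟩, hchar _ _ _ ⟨_, hac, rfl, 1, h1C, ?_⟩⟩
      rw [one_smul, ← hg a, ← hg c, smul_smul (g a * (g c)⁻¹), inv_mul_cancel_right]
    obtain ⟨c, hc, hc2⟩ := perfect_of_countable' hm hφX hsec
    exact ⟨fun b => (φ (c b) : X), hφX.comp hc.measurable, hc2⟩

end Pool.Agent.V8H60.TX
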