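import Mathlib
import Pool.Agent.V8H60.TX.Act
import Pool.Agent.V8H1.TX.T1
import Pool.Agent.V8H69.TX.T2
import Pool.Agent.V8H69.TX.T8
import Pool.Agent.V8H36.TX.T3
import Pool.Agent.V8H26.TX.T4
import Pool.Agent.V8H26.TX.T5
import Pool.Agent.V8H40.TX.T6

set_option autoImplicit false
set_option linter.unusedSectionVars false

/-!
# Extensions of nonarchimedean groups by locally compact groups
-/

namespace Pool.Agent.V8H60.TX

open Set Filter Topology MeasureTheory
open Function (Surjective Injective)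
open Pool.Agent.V8H60.TV (TVC Dich countable_orbits_iff tvc_down)

/-- The topological Vaught conjecture for an extension of a nonarchimedean group by a locally
compact group. -/
theorem tvc_ext {G W : Type} [TopologicalSpace G] [Group G] [IsTopologicalGroup G] [PolishSpace G]
    [MeasurableSpace G] [BorelSpace G] [TopologicalSpace W] [Group W] [NonarchimedeanGroup W]
    [PolishSpace W] [MeasurableSpace W] [BorelSpace W] (q : G →* W) (hq : Continuous q)
    (hqo : IsOpenMap q) (hN : LocallyCompactSpace q.ker) (hW : TVC W) : TVC G := by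
  intro X _ _ _ _
  have hm : Measurable fun p : G × X => p.1 • p.2 := measurable_smul
  have huc : ∀ ψ : X → ℝ, (∀ ε > 0, ∃ O ∈ 𝓝 (1 : G), ∀ g ∈ O, ∀ x, |ψ (g • x) - ψ x| ≤ ε) →
      ∀ x, Continuous fun g : G => ψ (g • x) := by
    intro ψ hψ x
    rw [continuous_iff_continuousAt]
    intro a
    rw [Metric.continuousAt_iff']
    intro ε hε
    obtain ⟨O, hO, hO2⟩ := hψ (ε / 2) (half_pos hε)
    have h1 : Tendsto (fun g : G => g * a⁻¹) (𝓝 a) (𝓝 1) := by
      have h2 : Continuous fun g : G => g * a⁻¹ := by fun_prop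
      have h3 := h2.tendsto a
      rwa [mul_inv_cancel] at h3
    filter_upwards [h1 hO] with g hg
    have h2 := hO2 _ hg (a • x)
    rw [smul_smul, inv_mul_cancel_right] at h2
    rw [Real.dist_eq]
    linarith
  obtain ⟨Ψ, hΨ, h01, hu, hsep⟩ := Pool.Agent.V8H1.TX.exists_unif hm
  have hΨc : ∀ k x, Continuous fun g : G => Ψ k (g • x) := fun k => huc (Ψ k) (hu k)
  obtain ⟨f, hf, hfu, hft⟩ := Pool.Agent.V8H69.TX.exists_tent hΨ hu hsep
  have hfc : ∀ k x, Continuous fun g : G => f k (g • x) := fun k => huc (f k) (hfu k)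
  obtain ⟨U, C, C', U₀, hU, hC, hC', hUq, hCq, hC'q, hU₀, h1U₀, hU₀U, hUi, hCi, hU3, hP⟩ :=
    Pool.Agent.V8H36.TX.exists_nbhds q hq hqo hN
  choose O hO hfO using fun k => hfu k (1 / 8) (by norm_num)
  choose P V hPo hP1 hPO hPi hVo hPV hJ hPC hPU using fun k => hP (O k) (hO k)
  have hU1 : (1 : G) ∈ U := hU₀U ⟨h1U₀, q.ker.one_mem⟩
  have hC1 : (1 : G) ∈ C := by simpa using hU3 1 hU1 1 hU1 1 hU1
  have hfP : ∀ k, ∀ p ∈ P k, ∀ x, |f k (p • x) - f k x| ≤ 1 / 8 :=
    fun k p hp x => hfO k p (hPO k hp) x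
  choose e he hec hee using fun k =>
    Pool.Agent.V8H26.TX.exists_e hm hΨ h01 hΨc hsep (hf k) (hfc k) hU hU1 hC hC1
  choose E hE hEc hEe using fun k => Pool.Agent.V8H26.TX.exists_E hm (he k) (hec k) hU hU1
  choose η hηm hη hη2 using fun k =>
    Pool.Agent.V8H40.TX.exists_lexmin hm hΨ h01 hΨc (he k) (hec k) hU
  have hcfg : ∀ k, Cfg q U C (P k) (V k) (f k) (e k) := fun k =>
    { U1 := hU1, Ui := hUi, Ci := hCi, U3 := hU3, P1 := hP1 k, Pi := hPi k, PV := hPV k,
      J := hJ k, he := hee k, fP := hfP k }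
  have hpiece := fun k => dich_piece hm hq (hcfg k) hU (hPo k) (hVo k) hΨ hsep (he k) (hE k)
    (hEc k) (hEe k) (hηm k) (hη k) (hη2 k) (tvc_down (hVo k) hW)
  by_cases hperf : ∃ φ : (ℕ → Bool) → X, Measurable φ ∧
      ∀ a b, a ≠ b → ¬ ∃ g : G, g • φ a = φ b
  · exact Or.inr hperf
  left
  rw [countable_orbits_iff]
  have hpiece' : ∀ k, ∃ A : Set X, A.Countable ∧
      ∀ z, Dom U (P k) (e k) z → ∃ s ∈ A, ∃ g : G, g • s = z :=
    fun k => (hpiece k).resolve_right hperf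
  choose A hA hA2 using hpiece'
  refine ⟨⋃ k, A k, countable_iUnion hA, fun x => ?_⟩
  obtain ⟨k, hk⟩ := Pool.Agent.V8H69.TX.cover q hft hC' hC'q hU₀ h1U₀ hPC hPU hfP x
  have hx : Dom U (P k) (e k) x := by
    refine ⟨?_, fun p hp => ⟨1, hU1, ?_⟩⟩
    · have h1 := (hee k _).2 (hk 1 (hP1 k))
      rwa [one_smul] at h1
    · rw [one_smul]
      exact (hee k _).2 (hk p hp)
  obtain ⟨s, hs, g, hg⟩ := hA2 k x hx
  exact ⟨s, mem_iUnion.2 ⟨k, hs⟩, g, hg⟩

end Pool.Agent.V8H60.TX
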